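import Pool.Agent.Y108.QE.Repr
import Pool.Agent.Y108.QE.Seven

/-!
# The exact number of variables in degree two

The definitions `eta`, `pencil` and `IsRealStable` are those of `NotMixedDet`.
-/

set_option autoImplicit false

open MvPolynomial Finset
open scoped ComplexOrder

namespace Pool.Agent.Results.MP_378045_ag.QuadraticThreshold

open Pool.Agent.Results.MP_378045_ag.NotMixedDet (eta pencil IsRealStable eta_map)
open Pool.Agent.Y108.QE

/-- Forgetting variables in a representation. -/
lemma restrict {n l l' m : ℕ} (e : Fin l → Fin l') (he : Function.Injective e)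
    (f : MvPolynomial (Fin l) ℝ) (A : Fin m → Fin l' → Matrix (Fin n) (Fin n) ℂ)
    (h : MvPolynomial.map (algebraMap ℝ ℂ) (rename e f) = eta (fun j => pencil (A j))) :
    MvPolynomial.map (algebraMap ℝ ℂ) f = eta (fun j => pencil (fun k => A j (e k))) := by
  classical
  have h1 := congrArg (killCompl he) h
  rw [killCompl_map, killCompl_rename_app] at h1
  rw [h1]
  have h2 := eta_map (killCompl he : MvPolynomial (Fin l') ℂ →ₐ[ℂ] MvPolynomial (Fin l) ℂ).toRingHom
    (fun j => pencil (A j))
  have h3 : (killCompl he : MvPolynomial (Fin l') ℂ →ₐ[ℂ] MvPolynomial (Fin l) ℂ).toRingHom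
      (eta (fun j => pencil (A j))) = killCompl he (eta (fun j => pencil (A j))) := rfl
  rw [← h3, h2]
  congr 1
  funext j
  ext1 i i'
  show (killCompl he : MvPolynomial (Fin l') ℂ →ₐ[ℂ] MvPolynomial (Fin l) ℂ)
      (∑ k, C (A j k i i') * X k) = ∑ k, C (A j (e k) i i') * X k
  rw [map_sum]
  have h4 : ∀ k : Fin l, killCompl he (C (A j (e k) i i') * X (e k)) =
      C (A j (e k) i i') * X k := by
    intro k
    rw [map_mul, killCompl_C]
    congr 1
    have := killCompl_rename_app he (X k : MvPolynomial (Fin l) ℂ)
    rwa [rename_X] at this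
  have h5 : ∀ k : Fin l', k ∉ Finset.univ.image e →
      killCompl he (C (A j k i i') * X k) = 0 := by
    intro k hk
    rw [map_mul]
    have h6 : killCompl he (X k : MvPolynomial (Fin l') ℂ) = 0 := by
      rw [killCompl, aeval_X, dif_neg]
      rintro ⟨a, ha⟩
      exact hk (Finset.mem_image.2 ⟨a, Finset.mem_univ _, ha⟩)
    rw [h6, mul_zero]
  rw [← Finset.sum_subset (Finset.subset_univ (Finset.univ.image e)) (fun k _ hk => h5 k hk),
    Finset.sum_image (fun a _ b _ hab => he hab)]
  exact Finset.sum_congr rfl fun k _ => h4 k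

/-- Real stability is kept when unused variables are added. -/
lemma stable_rename {l l' : ℕ} (e : Fin l → Fin l') (he : Function.Injective e)
    {f : MvPolynomial (Fin l) ℝ} (hf : IsRealStable f) : IsRealStable (rename e f) := by
  refine ⟨fun h => hf.1 ?_, fun z hz h => hf.2 (fun k => z (e k)) (fun k => hz (e k)) ?_⟩
  · apply rename_injective e he
    rw [h, map_zero]
  · rw [aeval_rename] at h
    exact h

/-- The value of a representation at the vector of ones is nonnegative. -/
lemma eta_nonneg {n l m : ℕ} (A : Fin m → Fin l → Matrix (Fin n) (Fin n) ℂ)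
    (hA : ∀ j k, (A j k).PosSemidef) :
    0 ≤ MvPolynomial.eval (fun _ => (1 : ℂ)) (eta (fun j => pencil (A j))) := by
  rw [eta_map]
  unfold eta
  apply Finset.sum_nonneg
  intro S _
  apply Finset.prod_nonneg
  intro j _
  apply Matrix.PosSemidef.det_nonneg
  apply Matrix.PosSemidef.submatrix
  have h1 : (pencil (A j)).map (MvPolynomial.eval (fun _ => (1 : ℂ))) = ∑ k, A j k := by
    ext i i'
    rw [Matrix.map_apply, pencil, map_sum, Matrix.sum_apply]
    apply Finset.sum_congr rfl
    intro k _
    rw [map_mul, eval_C, eval_X, mul_one]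
  show ((pencil (A j)).map (MvPolynomial.eval (fun _ => (1 : ℂ)))).PosSemidef
  rw [h1]
  exact Matrix.posSemidef_sum _ fun k _ => hA j k

lemma eval_map_one {l : ℕ} (f : MvPolynomial (Fin l) ℝ) :
    MvPolynomial.eval (fun _ => (1 : ℂ)) (MvPolynomial.map (algebraMap ℝ ℂ) f) =
      ((MvPolynomial.eval 1 f : ℝ) : ℂ) := by
  have h1 : (fun _ : Fin l => (1 : ℂ)) = (algebraMap ℝ ℂ) ∘ (1 : Fin l → ℝ) := by
    funext k
    simp
  rw [h1, ← MvPolynomial.map_eval]
  rfl

lemma eval_quad (x : Fin 7 → ℝ) : MvPolynomial.eval x Seven.quad = Seven.Q x := by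
  unfold Seven.quad Seven.Q
  rw [map_sum]
  apply Finset.sum_congr rfl
  intro k _
  rw [map_sum]
  apply Finset.sum_congr rfl
  intro l _
  split_ifs
  · simp
  · simp

/-- **The exact number of variables in degree two.** For a number `l` of variables the following
are equivalent: every real stable homogeneous polynomial of degree two is, up to its sign, of
the form `eta(L_1, ..., L_m)` for positive pencils of size two without constant term; and
`l ≤ 6`. In that case two pencils are enough. -/
theorem result :
    (∀ l : ℕ, l ≤ 6 → ∀ f : MvPolynomial (Fin l) ℝ, f.IsHomogeneous 2 → IsRealStable f →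
      ∃ A : Fin 2 → Fin l → Matrix (Fin 2) (Fin 2) ℂ, (∀ j k, (A j k).PosSemidef) ∧
        (MvPolynomial.map (algebraMap ℝ ℂ) f = eta (fun j => pencil (A j)) ∨
          MvPolynomial.map (algebraMap ℝ ℂ) (-f) = eta (fun j => pencil (A j)))) ∧
    (∀ l : ℕ, 7 ≤ l → ∃ f : MvPolynomial (Fin l) ℝ, f.IsHomogeneous 2 ∧ IsRealStable f ∧
      ∀ (m : ℕ) (A : Fin m → Fin l → Matrix (Fin 2) (Fin 2) ℂ), (∀ j k, (A j k).PosSemidef) →
        MvPolynomial.map (algebraMap ℝ ℂ) f ≠ eta (fun j => pencil (A j)) ∧
          MvPolynomial.map (algebraMap ℝ ℂ) (-f) ≠ eta (fun j => pencil (A j))) := by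
  constructor
  · intro l hl f hf hst
    have he := Fin.castLE_injective hl
    have hst6 := stable_rename _ he hst
    have hf6 : (rename (Fin.castLE hl) f).IsHomogeneous 2 := hf.rename_isHomogeneous
    obtain ⟨H, hH, hfH⟩ := exists_matrix hf6
    have hne : MvPolynomial.eval 1 (rename (Fin.castLE hl) f) ≠ 0 := by
      intro h0
      rw [eval_bf hfH] at h0
      refine stable_bf hH hfH hst6.2 0 1 (fun _ => zero_lt_one) ?_ ?_
      · rw [h0, map_zero]
      · rw [map_zero]
        rfl
    rcases lt_or_gt_of_ne hne with h0 | h0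
    · obtain ⟨A, hA, hAe⟩ := repr_six (f := rename (Fin.castLE hl) (-f))
        (by rw [map_neg]; exact hf6.neg)
        (by
          intro z hz h
          rw [map_neg, map_neg, neg_eq_zero] at h
          exact hst6.2 z hz h)
        (by rw [map_neg, map_neg]; linarith)
      exact ⟨fun j k => A j (Fin.castLE hl k), fun j k => hA j _, Or.inr (restrict _ he _ A hAe)⟩
    · obtain ⟨A, hA, hAe⟩ := repr_six hf6 hst6.2 h0
      exact ⟨fun j k => A j (Fin.castLE hl k), fun j k => hA j _, Or.inl (restrict _ he _ A hAe)⟩
  · intro l hl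
    have he := Fin.castLE_injective hl
    refine ⟨rename (Fin.castLE hl) Seven.quad, Seven.quad_homogeneous.rename_isHomogeneous,
      stable_rename _ he Seven.quad_stable, ?_⟩
    intro m A hA
    constructor
    · intro h
      obtain ⟨D⟩ := Seven.exists_data (fun j k => A j (Fin.castLE hl k)) (fun j k => hA j _)
        (restrict _ he _ A h)
      exact Seven.no_data D
    · intro h
      have h1 := eta_nonneg A hA
      rw [← h, eval_map_one, Complex.zero_le_real, map_neg] at h1
      have h2 : MvPolynomial.eval 1 (rename (Fin.castLE hl) Seven.quad) =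
          Seven.Q (fun _ => 1) := by
        rw [eval_rename, eval_quad]
        rfl
      have h3 := Seven.Q_pos (fun _ => 1) (fun _ => one_pos)
      rw [h2] at h1
      linarith

end Pool.Agent.Results.MP_378045_ag.QuadraticThreshold
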